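import Mathlib

namespace Pool.Agent.H.MP_3aeeeb_co

open Matrix

theorem krylov {N : ℕ} (A X : Matrix (Fin N) (Fin N) ℝ) (e : Fin N → ℝ)
    (h : ∀ k < N, e ⬝ᵥ (A ^ k * X) *ᵥ e = 0) (k : ℕ) : e ⬝ᵥ (A ^ k * X) *ᵥ e = 0 := by
  rcases Nat.eq_zero_or_pos N with rfl | hN
  · simp [dotProduct]
  have : Nonempty (Fin N) := ⟨⟨0, hN⟩⟩
  rw [Matrix.pow_eq_aeval_mod_charpoly, Polynomial.aeval_eq_sum_range' (n := N)]
  · rw [Finset.sum_mul, Matrix.sum_mulVec, dotProduct_sum]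
    refine Finset.sum_eq_zero fun i hi => ?_
    rw [smul_mul_assoc, Matrix.smul_mulVec, dotProduct_smul, h i (Finset.mem_range.1 hi),
      smul_zero]
  · have := Polynomial.natDegree_modByMonic_lt (Polynomial.X ^ k) A.charpoly_monic (by
      intro h
      have := A.charpoly_natDegree_eq_dim
      rw [h] at this
      simp at this
      omega)
    rwa [A.charpoly_natDegree_eq_dim, Fintype.card_fin] at this

theorem split {N : ℕ} {A X : Matrix (Fin N) (Fin N) ℝ} (hA : Aᵀ = A) (hc : A * X = X * A)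
    (e : Fin N → ℝ) (i j : ℕ) :
    e ⬝ᵥ (A ^ (i + j) * X) *ᵥ e = (A ^ i *ᵥ e) ⬝ᵥ X *ᵥ (A ^ j *ᵥ e) := by
  have h1 : A ^ j * X = X * A ^ j := (Commute.pow_left hc j).eq
  rw [pow_add, Matrix.mul_assoc, h1, ← Matrix.mulVec_mulVec, Matrix.dotProduct_mulVec,
    ← Matrix.mulVec_mulVec, ← Matrix.mulVec_transpose, Matrix.transpose_pow, hA]

def E : List (ℕ × ℕ) := [(0, 1), (1, 2), (2, 3), (0, 3), (0, 4), (1, 5), (5, 6), (6, 7)]

abbrev Ad (a b : Fin 8) : Prop := a ≠ b ∧ ((a.val, b.val) ∈ E ∨ (b.val, a.val) ∈ E)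

theorem core (A X : Matrix (Fin 8) (Fin 8) ℝ) (hs : ∀ i j, A i j = A j i)
    (z : ∀ i j, i ≠ j → ¬ Ad i j → A i j = 0) (nz : ∀ i j, Ad i j → A i j ≠ 0)
    (hx : ∀ i j, X i j = X j i) (xd : ∀ i, X i i = 0) (xe : ∀ i j, Ad i j → X i j = 0)
    (hcm : A * X = X * A) : X = 0 := by
  have hAt : Aᵀ = A := by ext p q; exact hs _ _
  have ha := nz 0 1 (by decide)
  have hb := nz 1 2 (by decide)
  have hg := nz 0 4 (by decide)
  have hh := nz 1 5 (by decide)
  have hi := nz 5 6 (by decide)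
  have hj := nz 6 7 (by decide)
  have a02 : A 0 2 = 0 := z _ _ (by decide) (by decide)
  have a05 : A 0 5 = 0 := z _ _ (by decide) (by decide)
  have a06 : A 0 6 = 0 := z _ _ (by decide) (by decide)
  have a07 : A 0 7 = 0 := z _ _ (by decide) (by decide)
  have a10 : A 1 0 = A 0 1 := hs _ _
  have a13 : A 1 3 = 0 := z _ _ (by decide) (by decide)
  have a14 : A 1 4 = 0 := z _ _ (by decide) (by decide)
  have a16 : A 1 6 = 0 := z _ _ (by decide) (by decide)
  have a17 : A 1 7 = 0 := z _ _ (by decide) (by decide)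
  have a20 : A 2 0 = 0 := z _ _ (by decide) (by decide)
  have a21 : A 2 1 = A 1 2 := hs _ _
  have a24 : A 2 4 = 0 := z _ _ (by decide) (by decide)
  have a25 : A 2 5 = 0 := z _ _ (by decide) (by decide)
  have a26 : A 2 6 = 0 := z _ _ (by decide) (by decide)
  have a27 : A 2 7 = 0 := z _ _ (by decide) (by decide)
  have a30 : A 3 0 = A 0 3 := hs _ _
  have a31 : A 3 1 = 0 := z _ _ (by decide) (by decide)
  have a32 : A 3 2 = A 2 3 := hs _ _
  have a34 : A 3 4 = 0 := z _ _ (by decide) (by decide)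
  have a35 : A 3 5 = 0 := z _ _ (by decide) (by decide)
  have a36 : A 3 6 = 0 := z _ _ (by decide) (by decide)
  have a37 : A 3 7 = 0 := z _ _ (by decide) (by decide)
  have a40 : A 4 0 = A 0 4 := hs _ _
  have a41 : A 4 1 = 0 := z _ _ (by decide) (by decide)
  have a42 : A 4 2 = 0 := z _ _ (by decide) (by decide)
  have a43 : A 4 3 = 0 := z _ _ (by decide) (by decide)
  have a45 : A 4 5 = 0 := z _ _ (by decide) (by decide)
  have a46 : A 4 6 = 0 := z _ _ (by decide) (by decide)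
  have a47 : A 4 7 = 0 := z _ _ (by decide) (by decide)
  have a50 : A 5 0 = 0 := z _ _ (by decide) (by decide)
  have a51 : A 5 1 = A 1 5 := hs _ _
  have a52 : A 5 2 = 0 := z _ _ (by decide) (by decide)
  have a53 : A 5 3 = 0 := z _ _ (by decide) (by decide)
  have a54 : A 5 4 = 0 := z _ _ (by decide) (by decide)
  have a57 : A 5 7 = 0 := z _ _ (by decide) (by decide)
  have a60 : A 6 0 = 0 := z _ _ (by decide) (by decide)
  have a61 : A 6 1 = 0 := z _ _ (by decide) (by decide)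
  have a62 : A 6 2 = 0 := z _ _ (by decide) (by decide)
  have a63 : A 6 3 = 0 := z _ _ (by decide) (by decide)
  have a64 : A 6 4 = 0 := z _ _ (by decide) (by decide)
  have a65 : A 6 5 = A 5 6 := hs _ _
  have a70 : A 7 0 = 0 := z _ _ (by decide) (by decide)
  have a71 : A 7 1 = 0 := z _ _ (by decide) (by decide)
  have a72 : A 7 2 = 0 := z _ _ (by decide) (by decide)
  have a73 : A 7 3 = 0 := z _ _ (by decide) (by decide)
  have a74 : A 7 4 = 0 := z _ _ (by decide) (by decide)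
  have a75 : A 7 5 = 0 := z _ _ (by decide) (by decide)
  have a76 : A 7 6 = A 6 7 := hs _ _
  have x00 : X 0 0 = 0 := xd _
  have x01 : X 0 1 = 0 := xe _ _ (by decide)
  have x03 : X 0 3 = 0 := xe _ _ (by decide)
  have x04 : X 0 4 = 0 := xe _ _ (by decide)
  have x10 : X 1 0 = 0 := xe _ _ (by decide)
  have x11 : X 1 1 = 0 := xd _
  have x12 : X 1 2 = 0 := xe _ _ (by decide)
  have x15 : X 1 5 = 0 := xe _ _ (by decide)
  have x20 : X 2 0 = X 0 2 := hx _ _
  have x21 : X 2 1 = 0 := xe _ _ (by decide)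
  have x22 : X 2 2 = 0 := xd _
  have x23 : X 2 3 = 0 := xe _ _ (by decide)
  have x30 : X 3 0 = 0 := xe _ _ (by decide)
  have x31 : X 3 1 = X 1 3 := hx _ _
  have x32 : X 3 2 = 0 := xe _ _ (by decide)
  have x33 : X 3 3 = 0 := xd _
  have x40 : X 4 0 = 0 := xe _ _ (by decide)
  have x41 : X 4 1 = X 1 4 := hx _ _
  have x42 : X 4 2 = X 2 4 := hx _ _
  have x43 : X 4 3 = X 3 4 := hx _ _
  have x44 : X 4 4 = 0 := xd _
  have x50 : X 5 0 = X 0 5 := hx _ _
  have x51 : X 5 1 = 0 := xe _ _ (by decide)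
  have x52 : X 5 2 = X 2 5 := hx _ _
  have x53 : X 5 3 = X 3 5 := hx _ _
  have x54 : X 5 4 = X 4 5 := hx _ _
  have x55 : X 5 5 = 0 := xd _
  have x56 : X 5 6 = 0 := xe _ _ (by decide)
  have x60 : X 6 0 = X 0 6 := hx _ _
  have x61 : X 6 1 = X 1 6 := hx _ _
  have x62 : X 6 2 = X 2 6 := hx _ _
  have x63 : X 6 3 = X 3 6 := hx _ _
  have x64 : X 6 4 = X 4 6 := hx _ _
  have x65 : X 6 5 = 0 := xe _ _ (by decide)
  have x66 : X 6 6 = 0 := xd _
  have x67 : X 6 7 = 0 := xe _ _ (by decide)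
  have x70 : X 7 0 = X 0 7 := hx _ _
  have x71 : X 7 1 = X 1 7 := hx _ _
  have x72 : X 7 2 = X 2 7 := hx _ _
  have x73 : X 7 3 = X 3 7 := hx _ _
  have x74 : X 7 4 = X 4 7 := hx _ _
  have x75 : X 7 5 = X 5 7 := hx _ _
  have x76 : X 7 6 = 0 := xe _ _ (by decide)
  have x77 : X 7 7 = 0 := xd _
  have E : ∀ p q, ∑ k, A p k * X k q = ∑ k, X p k * A k q := fun p q =>
    congrFun (congrFun hcm p) q
  have e76 := E 7 6
  have e65 := E 6 5
  have e75 := E 7 5
  have e51 := E 5 1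
  have e61 := E 6 1
  have e71 := E 7 1
  have e40 := E 4 0
  have e12 := E 1 2
  have e23 := E 2 3
  have e30 := E 3 0
  have e02 := E 0 2
  have e13 := E 1 3
  have e41 := E 4 1
  have e45 := E 4 5
  have e46 := E 4 6
  have e47 := E 4 7
  have e52 := E 5 2
  have e53 := E 5 3
  have e63 := E 6 3
  simp only [Fin.sum_univ_eight, mul_zero, zero_mul, add_zero, zero_add,
    a02, a05, a06, a07, a10, a13, a14, a16, a17, a20, a21, a24, a25, a26, a27, a30, a31, a32,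
    a34, a35, a36, a37, a40, a41, a42, a43, a45, a46, a47, a50, a51, a52, a53, a54, a57, a60,
    a61, a62, a63, a64, a65, a70, a71, a72, a73, a74, a75, a76, x00, x01, x03, x04, x10, x11,
    x12, x15, x20, x21, x22, x23, x30, x31, x32, x33, x40, x41, x42, x43, x44, x50, x51, x52,
    x53, x54, x55, x56, x60, x61, x62, x63, x64, x65, x66, x67, x70, x71, x72, x73, x74, x75,
    x76, x77] at e76 e65 e75 e51 e61 e71 e40 e12 e23 e30 e02 e13 e41 e45 e46 e47 e52 e53 e63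
  have y57 : X 5 7 = 0 := by simpa [hi] using e76
  have y16 : X 1 6 = 0 := by simpa [hh, y57] using e65
  have y17 : X 1 7 = 0 := by simpa [hh, y57] using e75
  have f5 : X 0 5 * A 0 1 + X 2 5 * A 1 2 = 0 := by simpa [y16] using e51.symm
  have f6 : X 0 6 * A 0 1 + X 2 6 * A 1 2 = 0 := by simpa [y16, y17] using e61.symm
  have f7 : X 0 7 * A 0 1 + X 2 7 * A 1 2 = 0 := by simpa [y16, y17, y57] using e71.symm
  set e : Fin 8 → ℝ := Pi.single 7 1 with he
  have st : ∀ (k : ℕ) (p : Fin 8), (A ^ (k + 1) *ᵥ e) p = ∑ q, A p q * (A ^ k *ᵥ e) q := by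
    intro k p
    rw [pow_succ', ← Matrix.mulVec_mulVec]
    rfl
  have v0 : ∀ p : Fin 8, p ≠ 7 → (A ^ 0 *ᵥ e) p = 0 := fun p hp => by simp [he, hp]
  have w0 : (A ^ 0 *ᵥ e) 7 = 1 := by simp [he]
  have s1 : ∀ p, (A ^ 1 *ᵥ e) p = A p 7 := by
    intro p
    rw [st, Fin.sum_univ_eight, v0 0 (by decide), v0 1 (by decide), v0 2 (by decide),
      v0 3 (by decide), v0 4 (by decide), v0 5 (by decide), v0 6 (by decide), w0]
    ring
  have s2 : ∀ p, (A ^ 2 *ᵥ e) p = A p 6 * A 6 7 + A p 7 * A 7 7 := by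
    intro p
    rw [st, Fin.sum_univ_eight]
    simp only [s1, a07, a17, a27, a37, a47, a57]
    ring
  have s3 : ∀ p, (A ^ 3 *ᵥ e) p = A p 5 * (A 5 6 * A 6 7) + A p 6 * (A ^ 2 *ᵥ e) 6 +
      A p 7 * (A ^ 2 *ᵥ e) 7 := by
    intro p
    rw [st, Fin.sum_univ_eight, s2 0, s2 1, s2 2, s2 3, s2 4, s2 5]
    simp only [a07, a17, a27, a37, a47, a57, a06, a16, a26, a36, a46]
    ring
  have s4 : ∀ p, (A ^ 4 *ᵥ e) p = A p 1 * (A 1 5 * (A 5 6 * A 6 7)) + A p 5 * (A ^ 3 *ᵥ e) 5 +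
      A p 6 * (A ^ 3 *ᵥ e) 6 + A p 7 * (A ^ 3 *ᵥ e) 7 := by
    intro p
    rw [st, Fin.sum_univ_eight, s3 0, s3 1, s3 2, s3 3, s3 4]
    simp only [a07, a17, a27, a37, a47, a06, a16, a26, a36, a46, a05, a25, a35, a45]
    ring
  have key : ∀ (y z : Fin 8 → ℝ) (r s : ℝ), y 0 = A 0 1 * r → y 2 = A 1 2 * r → y 3 = 0 →
      y 4 = 0 → z 0 = A 0 1 * s → z 2 = A 1 2 * s → z 3 = 0 → z 4 = 0 →
      y ⬝ᵥ X *ᵥ z = 2 * A 0 1 * A 1 2 * r * s * X 0 2 := by
    intro y z r s y0 y2 y3 y4 z0 z2 z3 z4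
    simp only [dotProduct, Matrix.mulVec, Fin.sum_univ_eight, y0, y2, y3, y4, z0, z2, z3, z4,
      x00, x01, x03, x04, x10, x11, x12, x15, x20, x21, x22, x23, x30, x31, x32, x33, x40, x41,
      x42, x43, x44, x50, x51, x52, x53, x54, x55, x56, x60, x61, x62, x63, x64, x65, x66, x67,
      x70, x71, x72, x73, x74, x75, x76, x77, y57, y16, y17]
    linear_combination (r * z 5 + s * y 5) * f5 + (r * z 6 + s * y 6) * f6 +
      (r * z 7 + s * y 7) * f7
  have low : ∀ k ≤ 3, (A ^ k *ᵥ e) 0 = A 0 1 * 0 ∧ (A ^ k *ᵥ e) 2 = A 1 2 * 0 ∧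
      (A ^ k *ᵥ e) 3 = 0 ∧ (A ^ k *ᵥ e) 4 = 0 := by
    intro k hk
    interval_cases k
    · rw [v0 0 (by decide), v0 2 (by decide), v0 3 (by decide), v0 4 (by decide)]; simp
    · simp only [s1, a07, a27, a37, a47]; simp
    · simp only [s2, a07, a27, a37, a47, a06, a26, a36, a46]; simp
    · rw [s3 0, s3 2, s3 3, s3 4]
      simp only [a07, a27, a37, a47, a06, a26, a36, a46, a05, a25, a35, a45]; simp
  have u0 : (A ^ 4 *ᵥ e) 0 = A 0 1 * (A 1 5 * (A 5 6 * A 6 7)) := by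
    rw [s4 0, a05, a06, a07]; ring
  have u2 : (A ^ 4 *ᵥ e) 2 = A 1 2 * (A 1 5 * (A 5 6 * A 6 7)) := by
    rw [s4 2, a25, a26, a27, a21]; ring
  have u3 : (A ^ 4 *ᵥ e) 3 = 0 := by rw [s4 3, a35, a36, a37, a31]; ring
  have u4 : (A ^ 4 *ᵥ e) 4 = 0 := by rw [s4 4, a45, a46, a47, a41]; ring
  have z8 := krylov A X e (fun k hk => by
    by_cases h4 : k ≤ 3
    · have := split hAt hcm e k 0
      rw [add_zero] at this
      obtain ⟨l1, l2, l3, l4⟩ := low k h4
      obtain ⟨m1, m2, m3, m4⟩ := low 0 (by omega)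
      rw [this, key _ _ 0 0 l1 l2 l3 l4 m1 m2 m3 m4]
      ring
    · obtain ⟨l, rfl⟩ : ∃ l, k = l + 4 := ⟨k - 4, by omega⟩
      obtain ⟨l1, l2, l3, l4⟩ := low l (by omega)
      rw [split hAt hcm e l 4, key _ _ 0 _ l1 l2 l3 l4 u0 u2 u3 u4]
      ring) (4 + 4)
  rw [split hAt hcm e 4 4, key _ _ _ _ u0 u2 u3 u4 u0 u2 u3 u4] at z8
  have y02 : X 0 2 = 0 := by simpa [ha, hb, hh, hi, hj] using z8
  have y13 : X 1 3 = 0 := by simpa [hb, y02] using e23
  have y25 : X 2 5 = 0 := by simpa [hh, y02, y13] using e12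
  have y05 : X 0 5 = 0 := by simpa [ha, y25] using f5
  have y34 : X 3 4 = 0 := by simpa [hg, y02, y13] using e30
  have y14 : X 1 4 = 0 := by simpa [ha, y34] using e40
  have y24 : X 2 4 = 0 := by simpa [hg, y02] using e02
  have y35 : X 3 5 = 0 := by simpa [hh, y13] using e13
  have y45 : X 4 5 = 0 := by simpa [hh, y14, y24] using e41
  have y46 : X 4 6 = 0 := by simpa [hi, y05, y45, y14] using e45
  have y26 : X 2 6 = 0 := by simpa [hi, y25, y35] using e52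
  have y06 : X 0 6 = 0 := by simpa [ha, y26] using f6
  have y36 : X 3 6 = 0 := by simpa [hi, y13, y35, y25, y05] using e53
  have y47 : X 4 7 = 0 := by simpa [hj, y06, y46, y45] using e46
  have y07 : X 0 7 = 0 := by simpa [hg, y47, y46] using e47
  have y27 : X 2 7 = 0 := by simpa [hb, y07] using f7
  have y37 : X 3 7 = 0 := by simpa [hj, y35, y36, y26, y06] using e63
  have up : ∀ p q : Fin 8, p ≤ q → X p q = 0 := by
    intro p q h
    fin_cases p <;> fin_cases q <;> first | assumption | exact absurd h (by decide)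
  ext p q
  rcases le_total p q with h | h
  · exact up p q h
  · rw [hx]; exact up q p h

end Pool.Agent.H.MP_3aeeeb_co
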